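import Mathlib
import Pool.Agent.MP_adc87d_lc.BI.Inj
import Pool.Agent.MP_adc87d_lc.BI.Dens

/-! An explicit polynomial pairing function on a set of rationals of density near one. -/

set_option autoImplicit false

namespace Pool.Agent.Results.MP_adc87d_lc.BigInj

open Pool.Agent.MP_adc87d_lc.BI

theorem result (l : ℕ) (hl : l.Prime) (h13 : 13 ≤ l) :
    Set.InjOn (pairPoly l) (goodSet l ×ˢ goodSet l) ∧
    Set.MapsTo (pairPoly l) (goodSet l ×ˢ goodSet l) (goodSet l) ∧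
    (∀ x : ℚ, (∀ p : ℕ, p.Prime → p ∣ x.den → 2 ≤ p % l) → x ∈ goodSet l) ∧
    ∀ᶠ N : ℕ in Filter.atTop, (1 - 200 / (l : ℝ)) * ({x : ℚ | ht x ≤ N}.ncard : ℝ) ≤
      ({x : ℚ | ht x ≤ N ∧ x ∈ goodSet l}.ncard : ℝ) := by
  refine ⟨injOn l hl h13, mapsTo l hl h13, fun x hx g hg v => ?_, dens l hl h13⟩
  have : g = 1 := by
    by_contra h
    obtain ⟨p, hp, hd⟩ := Nat.exists_prime_and_dvd h
    have := v p hp hd
    have := hx p hp (hd.trans hg)
    omega
  rw [this, one_pow]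
  exact le_trans x.den_pos (le_max_right _ _)

end Pool.Agent.Results.MP_adc87d_lc.BigInj
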