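import Mathlib
import Pool.Agent.Mg.Fadc87d.Gea9df5

/-! Subrings of the rationals that invert almost all primes and carry a Diophantine bijection
with the natural numbers. -/

set_option autoImplicit false

namespace Pool.Agent.Results.MP_adc87d_lc.BigNat

theorem result (ε : ℝ) (hε : 0 < ε) :
    ∃ (k C : ℕ) (S : Set ℕ) (R : Subring ℚ),
      S = {p : ℕ | p.Prime ∧ C < p ∧ ((p % 3 ^ k ≠ 1 ∧ p % 3 ^ k ≠ 3 ^ k - 1) ∨
        (p % 3 = 1 ∧ ¬IsSquare (p : ZMod 23)))} ∧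
      (∀ᶠ N : ℕ in Filter.atTop,
        (1 - ε) * (Nat.primeCounting N : ℝ) ≤ (Set.ncard {p : ℕ | p ∈ S ∧ p ≤ N} : ℝ)) ∧
      (∀ x : ℚ, x ∈ R ↔ ∀ p : ℕ, p.Prime → p ∣ x.den → p ∈ S) ∧
      ∃ (e : R ≃ ℕ) (m : ℕ) (P : MvPolynomial (Fin 2 ⊕ Fin m) ℤ), ∀ x y : R,
        y = ((e x : ℕ) : R) ↔ ∃ w : Fin m → R, MvPolynomial.aeval (Sum.elim ![x, y] w) P = 0 := by
  obtain ⟨k, hk, hd⟩ := Pool.Agent.MP_adc87d_lc.Big.dens ε hε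
  obtain ⟨C, R, hR, h⟩ := Pool.Agent.MP_adc87d_lc.Big.bij_def k hk
  refine ⟨k, C, _, R, rfl, ?_, fun x => (hR x).trans ?_, h⟩
  · filter_upwards [hd C] with N hN
    refine hN.trans (le_of_eq ?_)
    congr 2
    ext p
    exact ⟨fun h => ⟨h.2, h.1⟩, fun h => ⟨h.2, h.1⟩⟩
  · exact ⟨fun h p hp hd => ⟨hp, h p hp hd⟩, fun h p hp hd => (h p hp hd).2⟩

end Pool.Agent.Results.MP_adc87d_lc.BigNat
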