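import Pool.Agent.Mg.Fadc87d.G984045
import Pool.Agent.Mg.Fadc87d.G2faaf0
import Pool.Agent.Mg.Fadc87d.Gccc7f0
import Pool.Agent.Mg.Fadc87d.G520b82

set_option autoImplicit false

namespace Pool.Agent.Results.MP_adc87d_lc.CubeInj

open Pool.Agent.MP_adc87d_lc MvPolynomial

theorem iter {D : Set ℚ} (h0 : 0 ∉ D) (hc : ∀ x ∈ D, ∀ y ∈ D, ∀ c : ℚ, x = c ^ 3 * y → x = y)
    (h2 : ∀ t : ℚ, t ^ 3 ≠ 2) (n : ℕ) : ∃ f : MvPolynomial (Fin (n + 1)) ℚ,
      (∀ z : Fin (n + 1) → ℚ, (∀ i : Fin n, z i.succ ∈ D) → eval z f ≠ 0) ∧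
      Set.InjOn (fun z : Fin (n + 1) → ℚ => eval z f) {z | ∀ i : Fin n, z i.succ ∈ D} := by
  have o : Odd 3 := by decide
  induction n with
  | zero =>
    refine ⟨X 0 ^ 3 - 2, fun z _ => ?_, fun z _ z' _ e => ?_⟩
    · simpa [sub_eq_zero, map_ofNat] using h2 (z 0)
    · simp only [map_sub, map_pow, eval_X, map_ofNat, sub_left_inj] at e
      funext i
      rw [Fin.fin_one_eq_zero i]
      exact o.pow_injective e
  | succ n ih =>
    obtain ⟨f, f0, fi⟩ := ih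
    have m : ∀ z : Fin (n + 2) → ℚ, (∀ i : Fin (n + 1), z i.succ ∈ D) →
        (∀ i : Fin n, (z ∘ Fin.castSucc) i.succ ∈ D) ∧ z (Fin.last _) ∈ D := fun z h =>
      ⟨fun i => h i.castSucc, h (Fin.last n)⟩
    refine ⟨rename Fin.castSucc f ^ 3 * X (Fin.last _), fun z h => ?_, fun z h z' h' e => ?_⟩
    · rw [map_mul, map_pow, eval_rename, eval_X]
      exact mul_ne_zero (pow_ne_zero _ (f0 _ (m z h).1)) fun e => h0 (e ▸ (m z h).2)
    · simp only [map_mul, map_pow, eval_rename, eval_X] at e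
      have n0 := f0 _ (m z h).1
      have e1 := hc _ (m z h).2 _ (m z' h').2
        (eval (z' ∘ Fin.castSucc) f / eval (z ∘ Fin.castSucc) f) (by
          field_simp
          linear_combination e)
      rw [← e1] at e
      have e2 := fi (m z h).1 (m z' h').1
        (o.pow_injective (mul_right_cancel₀ (fun e => h0 (e ▸ (m z h).2)) e))
      funext i
      exact Fin.lastCases e1 (fun j => congrFun e2 j) i

theorem result : ∃ D : Set ℚ, D.Infinite ∧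
    (∃ (m : ℕ) (P : MvPolynomial (Fin 1 ⊕ Fin m) ℚ), ∀ x : ℚ,
      x ∈ D ↔ ∃ w : Fin m → ℚ, MvPolynomial.eval (Sum.elim ![x] w) P = 0) ∧
    (∀ x ∈ D, ∀ y ∈ D, ∀ c : ℚ, x = c ^ 3 * y → x = y) ∧
    Set.InjOn (fun p : ℚ × ℚ => (p.1 ^ 3 - 2) ^ 3 * p.2) (Set.univ ×ˢ D) ∧
    ∀ n : ℕ, ∃ f : MvPolynomial (Fin (n + 1)) ℚ,
      Set.InjOn (fun z : Fin (n + 1) → ℚ => MvPolynomial.eval z f)
        {z | ∀ i : Fin n, z i.succ ∈ D} := by
  have hZ := zst kf l1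
  have hP := pr kf l2 hZ
  have hT := ty kf
  have h3 := l3 kf hT
  have hL := loc kf
  have hR := rk kf l2 hZ hT h3 d1 d2 hL
  obtain ⟨D, a, b, c, d, e⟩ := main_of kf l2 hP h3 hL hR
    (fin kf l2 hZ hP hT h3 (euc kf hP (inv kf l2 hZ hP) h3 (wild kf) (jst kf)) hR)
  exact ⟨D, a, b, d, e, fun n => (iter c d hL.2.2.2.2 n).imp fun _ h => h.2⟩

end Pool.Agent.Results.MP_adc87d_lc.CubeInj
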